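import Mathlib
import Pool.Agent.H88.MO.Main

/-!
# Near Hilbert Musielak–Orlicz sequence spaces contain asymptotically Hilbertian subspaces which
# are not Hilbertian

This is the positive answer to the question for all Musielak–Orlicz sequence spaces
(the subspace can be chosen as a block subspace).

Idea. (1) A Musielak–Orlicz space is asymptotically Hilbertian if, far out, the modular
`ρ(y) = ∑ M_i(|y_i|)` behaves quadratically over any given number of dyadic scales, up to a fixed
constant and small additive errors: the unit ball of an `n`-dimensional subspace `E` is dominated by
one vector `z` of norm at most one, and `ρ` is compared on `E` with the quadratic form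
`∑ (M_i(z_i) / z_i ^ 2) |y_i| ^ 2` by means of the dyadic level sets of `|y_i| / z_i`.
(2) If the functions `t ↦ ρ(t u)` of the normalised blocks `u` far out are uniformly quadratic, the
whole space satisfies (1). (3) Otherwise there are, for each `D`, disjoint normalised blocks whose
functions deviate by the factor `D` from a quadratic function at one dyadic scale. Their limit
functions `N` along an ultrafilter satisfy, by type `p` and cotype `q` for `p < 2 < q`, growth bounds
with constants which do not depend on the sequence, and a superposition
`Q(t) = ∑ κ_l N(2 ^ (-l) t)` with weights `κ_l` like `4 ^ l β ^ (- |l - Y|)` is quadratic up to a factor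
`8` over many scales, but still deviates from a quadratic function by a large factor. Finitely many
blocks of the form `∑ κ_l` copies of `2 ^ (-l) u` for each stage span the subspace.
-/

namespace Pool.Agent.Results.MP_650c5e_an.MusielakOrliczSpaces

open Pool.Agent.H88.MO

universe u

/-- Let `X` be a real or complex Musielak–Orlicz sequence space with unit vectors `e i` (over any
index set). If `X` is near Hilbert and not Hilbertian, then `X` contains a closed subspace `Y`,
spanned by vectors with pairwise disjoint finite supports, which is asymptotically Hilbertian but not
Hilbertian. -/
theorem result (𝕜 : Type) [RCLike 𝕜] {ι : Type} (M : ι → ℝ → ℝ)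
    {X : Type u} [NormedAddCommGroup X] [NormedSpace 𝕜 X] [CompleteSpace X] (e : ι → X)
    (hX : IsMusielakOrlicz 𝕜 M e) (hnear : NearHilbert X) (hnot : ¬ Hilbertian 𝕜 X) :
    ∃ Y : Submodule 𝕜 X, IsClosed (Y : Set X) ∧ IsBlockSubspace 𝕜 e Y ∧
      AsymptoticallyHilbertian 𝕜 Y ∧ ¬ Hilbertian 𝕜 Y :=
  main hX hnear hnot

end Pool.Agent.Results.MP_650c5e_an.MusielakOrliczSpaces
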